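import Pool.Agent.H740R3.AQStmts

set_option autoImplicit false
set_option synthInstance.maxHeartbeats 400000

open Filter Topology
open scoped InnerProductSpace ComplexConjugate

namespace Pool.Agent.H644R3.AQ

open Pool.Agent.H740R3.AQ

/-- the unitary matrix -/
structure Mat (K : ℕ) (a : ℕ → ℕ → ℂ) : Prop where
  row : ∀ p < K, ∀ p' < K, ∑ q ∈ Finset.range K, conj (a p q) * a p' q = if p = p' then 1 else 0
  col : ∀ q < K, ∀ q' < K, ∑ p ∈ Finset.range K, a p q * conj (a p q') = if q = q' then 1 else 0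
  cj : ∀ p < K, ∀ q < K, conj (a (K - 1 - p) q) = a p q
  sum : ∀ q < K, ∑ p ∈ Finset.range K, a p q = if q = 0 then ((Real.sqrt K : ℝ) : ℂ) else 0

/-- `V` -/
noncomputable def Vop (N K : ℕ) (a : ℕ → ℕ → ℂ) (p : ℕ) : H →L[ℂ] H :=
  ∑ i ∈ Finset.range N, ∑ q ∈ Finset.range K, (a p q) • rk (e (i + N * q)) (e i)

/-- `W` -/
noncomputable def Wop (N K : ℕ) (a : ℕ → ℕ → ℂ) (p : ℕ) : H →L[ℂ] H :=
  ∑ i ∈ Finset.range N, ∑ q ∈ Finset.range K, (conj (a p q)) • rk (e i) (e (i + N * q))

theorem V_eq (N K : ℕ) (a : ℕ → ℕ → ℂ) (p : ℕ) (x : H) : Vop N K a p x =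
    ∑ i ∈ Finset.range N, ∑ q ∈ Finset.range K, (a p q * x i) • e (i + N * q) := by
  unfold Vop
  rw [sum_apply]
  refine Finset.sum_congr rfl fun i _ => ?_
  rw [sum_apply]
  refine Finset.sum_congr rfl fun q _ => ?_
  rw [smul_apply, rk_apply, b_e_left, smul_smul]

theorem W_eq (N K : ℕ) (a : ℕ → ℕ → ℂ) (p : ℕ) (x : H) : Wop N K a p x =
    ∑ i ∈ Finset.range N, ∑ q ∈ Finset.range K, (conj (a p q) * x (i + N * q)) • e i := by
  unfold Wop
  rw [sum_apply]
  refine Finset.sum_congr rfl fun i _ => ?_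
  rw [sum_apply]
  refine Finset.sum_congr rfl fun q _ => ?_
  rw [smul_apply, rk_apply, b_e_left, smul_smul]

theorem W_apply (N K : ℕ) (a : ℕ → ℕ → ℂ) (p : ℕ) (x : H) (i : ℕ) (hi : i < N) :
    (Wop N K a p x) i = ∑ q ∈ Finset.range K, conj (a p q) * x (i + N * q) := by
  rw [← b_e_left, W_eq, b_sum_right, Finset.sum_eq_single i]
  · rw [b_sum_right]
    refine Finset.sum_congr rfl fun q _ => ?_
    rw [b_smul_right, b_e_e, if_pos rfl, mul_one]
  · intro j _ hj
    rw [b_sum_right]
    refine Finset.sum_eq_zero fun q _ => ?_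
    rw [b_smul_right, b_e_e, if_neg (Ne.symm hj), mul_zero]
  · intro h
    exact absurd (Finset.mem_range.mpr hi) h

theorem V_apply (N K : ℕ) (a : ℕ → ℕ → ℂ) (p : ℕ) (x : H) (i q : ℕ) (hi : i < N) (hq : q < K) :
    (Vop N K a p x) (i + N * q) = a p q * x i := by
  have key : ∀ j r, j < N → i + N * q = j + N * r → j = i ∧ r = q := by
    intro j r hj h
    have h1 : (i + N * q) % N = i := by rw [Nat.add_mul_mod_self_left, Nat.mod_eq_of_lt hi]
    have h2 : (j + N * r) % N = j := by rw [Nat.add_mul_mod_self_left, Nat.mod_eq_of_lt hj]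
    have h3 : j = i := by rw [← h1, ← h2, h]
    refine ⟨h3, ?_⟩
    subst h3
    have h4 : N * q = N * r := by omega
    exact (Nat.eq_of_mul_eq_mul_left (by omega) h4).symm
  rw [← b_e_left, V_eq, b_sum_right, Finset.sum_eq_single i]
  · rw [b_sum_right, Finset.sum_eq_single q]
    · rw [b_smul_right, b_e_e, if_pos rfl, mul_one]
    · intro r _ hr
      rw [b_smul_right, b_e_e, if_neg (fun h => hr (key i r hi h).2), mul_zero]
    · intro h
      exact absurd (Finset.mem_range.mpr hq) h
  · intro j hj hji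
    rw [b_sum_right]
    refine Finset.sum_eq_zero fun r _ => ?_
    rw [b_smul_right, b_e_e, if_neg (fun h => hji (key j r (Finset.mem_range.mp hj) h).1), mul_zero]
  · intro h
    exact absurd (Finset.mem_range.mpr hi) h

theorem sum_blocks {M : Type} [AddCommMonoid M] (N K : ℕ) (f : ℕ → M) :
    ∑ n ∈ Finset.range (N * K), f n =
      ∑ i ∈ Finset.range N, ∑ q ∈ Finset.range K, f (i + N * q) := by
  rw [Finset.sum_comm]
  induction K with
  | zero => simp
  | succ K ih =>
    rw [Nat.mul_succ, Finset.sum_range_add, ih, Finset.sum_range_succ]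
    congr 1
    refine Finset.sum_congr rfl fun i _ => ?_
    rw [add_comm]

theorem vw_of_mat (N K : ℕ) (a : ℕ → ℕ → ℂ) (ha : Mat K a) :
    VW N K (Vop N K a) (Wop N K a) := by
  constructor
  · intro p hp q hq x
    rw [W_eq]
    have h1 : ∀ i ∈ Finset.range N, ∑ r ∈ Finset.range K,
        (conj (a p r) * (Vop N K a q x) (i + N * r)) • e i =
        (if p = q then (1 : ℂ) else 0) • (x i • e i) := by
      intro i hi
      rw [← ha.row p hp q hq, Finset.sum_smul]
      refine Finset.sum_congr rfl fun r hr => ?_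
      rw [V_apply N K a q x i r (Finset.mem_range.mp hi) (Finset.mem_range.mp hr), smul_smul]
      congr 1
      ring
    rw [Finset.sum_congr rfl h1, ← Finset.smul_sum, ← Pi_eq]
    split_ifs
    · rw [one_smul]
    · rw [zero_smul]
  · intro x
    rw [Pi_eq, sum_blocks]
    have h1 : ∀ p ∈ Finset.range K, Vop N K a p (Wop N K a p x) =
        ∑ i ∈ Finset.range N, ∑ q ∈ Finset.range K, ∑ r ∈ Finset.range K,
          (a p q * conj (a p r)) • (x (i + N * r) • e (i + N * q)) := by
      intro p _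
      rw [V_eq]
      refine Finset.sum_congr rfl fun i hi => ?_
      refine Finset.sum_congr rfl fun q _ => ?_
      rw [W_apply N K a p x i (Finset.mem_range.mp hi), Finset.mul_sum, Finset.sum_smul]
      refine Finset.sum_congr rfl fun r _ => ?_
      rw [smul_smul]
      congr 1
      ring
    rw [Finset.sum_congr rfl h1, Finset.sum_comm]
    refine Finset.sum_congr rfl fun i _ => ?_
    rw [Finset.sum_comm]
    refine Finset.sum_congr rfl fun q hq => ?_
    rw [Finset.sum_comm]
    have h2 : ∀ r ∈ Finset.range K, ∑ p ∈ Finset.range K,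
        (a p q * conj (a p r)) • (x (i + N * r) • e (i + N * q)) =
        (if q = r then (1 : ℂ) else 0) • (x (i + N * r) • e (i + N * q)) := by
      intro r hr
      rw [← Finset.sum_smul, ha.col q (Finset.mem_range.mp hq) r (Finset.mem_range.mp hr)]
    rw [Finset.sum_congr rfl h2, Finset.sum_eq_single q]
    · rw [if_pos rfl, one_smul]
    · intro r _ hr
      rw [if_neg (Ne.symm hr), zero_smul]
    · intro h
      exact absurd hq h
  · intro p _ x
    rw [V_eq, V_eq]
    refine Finset.sum_congr rfl fun i hi => ?_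
    rw [Pi_apply, if_pos (Finset.mem_range.mp hi)]
  · intro p _ x
    rw [Pi_eq, W_eq]
    refine Finset.sum_congr rfl fun i hi => ?_
    rw [← W_eq, W_apply N K a p x i (Finset.mem_range.mp hi), Finset.sum_smul]
  · intro p hp x y
    rw [V_eq, W_eq, b_sum_left, b_sum_right]
    refine Finset.sum_congr rfl fun i _ => ?_
    rw [b_sum_left, b_sum_right]
    refine Finset.sum_congr rfl fun q hq => ?_
    rw [b_smul_left, b_smul_right, b_e_left, b_comm x, b_e_left, ha.cj p hp q (Finset.mem_range.mp hq)]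
    ring
  · intro p _ x y
    rw [V_eq, W_eq, sum_inner, inner_sum]
    refine Finset.sum_congr rfl fun i _ => ?_
    rw [sum_inner, inner_sum]
    refine Finset.sum_congr rfl fun q _ => ?_
    rw [inner_smul_left, inner_smul_right, inner_e_left, ← inner_conj_symm x, inner_e_left, map_mul]
    ring
  · intro x hx
    have h1 : ∑ p ∈ Finset.range K, Vop N K a p x = ((Real.sqrt K : ℝ) : ℂ) • Pi N x := by
      rw [Pi_eq, Finset.smul_sum]
      simp_rw [V_eq]
      rw [Finset.sum_comm]
      refine Finset.sum_congr rfl fun i _ => ?_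
      rw [Finset.sum_comm]
      have h2 : ∀ q ∈ Finset.range K, ∑ p ∈ Finset.range K, (a p q * x i) • e (i + N * q) =
          (if q = 0 then ((Real.sqrt K : ℝ) : ℂ) else 0) • (x i • e (i + N * q)) := by
        intro q hq
        rw [← ha.sum q (Finset.mem_range.mp hq), Finset.sum_smul]
        refine Finset.sum_congr rfl fun p _ => ?_
        rw [smul_smul]
      rw [Finset.sum_congr rfl h2]
      rcases Nat.eq_zero_or_pos K with hK | hK
      · subst hK; simp
      rw [Finset.sum_eq_single 0]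
      · rw [if_pos rfl, mul_zero, add_zero]
      · intro q _ hq
        rw [if_neg hq, zero_smul]
      · intro h
        exact absurd (Finset.mem_range.mpr hK) h
    rw [h1, hx]

theorem geom0 (K : ℕ) (r : ℂ) (h1 : r ^ K = 1) (h2 : r ≠ 1) : ∑ q ∈ Finset.range K, r ^ q = 0 := by
  rw [geom_sum_eq h2, h1, sub_self, zero_div]

theorem mat_exists (K : ℕ) (hK : 1 ≤ K) : ∃ a : ℕ → ℕ → ℂ, Mat K a := by
  have hK0 : (K : ℝ) ≠ 0 := by positivity
  have hKR : (0 : ℝ) < K := by positivity
  set c : ℝ := 1 / Real.sqrt K with hc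
  have hcc : (c : ℂ) * (c : ℂ) * (K : ℂ) = 1 := by
    have : c * c * K = 1 := by
      rw [hc]
      field_simp
      exact (Real.sq_sqrt hKR.le).symm
    exact_mod_cast this
  have hcK : (K : ℂ) * (c : ℂ) = ((Real.sqrt K : ℝ) : ℂ) := by
    have : (K : ℝ) * c = Real.sqrt K := by
      rw [hc]
      field_simp
      exact (Real.sq_sqrt hKR.le).symm
    exact_mod_cast this
  obtain ⟨η, hη⟩ : ∃ η : ℂ, IsPrimitiveRoot η (2 * K) := ⟨_, Complex.isPrimitiveRoot_exp (2 * K) (by omega)⟩
  have hη2 : η ^ (2 * K) = 1 := hη.pow_eq_one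
  have hηK : η ^ K = -1 := by
    have h1 : (η ^ K) * (η ^ K) = 1 := by rw [← pow_add, ← two_mul, hη2]
    rcases mul_self_eq_one_iff.mp h1 with h | h
    · exact absurd h (hη.pow_ne_one_of_pos_of_lt (by omega) (by omega))
    · exact h
  have hnorm : ‖η‖ = 1 := Complex.norm_eq_one_of_pow_eq_one hη2 (by omega)
  have hcj : conj η * η = 1 := by
    rw [← Complex.normSq_eq_conj_mul_self, Complex.normSq_eq_norm_sq, hnorm]; norm_num
  have hcjp : ∀ m : ℕ, conj (η ^ m) * η ^ m = 1 := by
    intro m
    rw [map_pow, ← mul_pow, hcj, one_pow]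
  have hζ : IsPrimitiveRoot (η ^ 2) K := hη.pow (by omega) rfl
  have hcancel : ∀ m m' : ℕ, conj (η ^ m) * η ^ m' = 1 → η ^ m' = η ^ m := by
    intro m m' h
    have h1 := hcjp m
    have h2 : conj (η ^ m) ≠ 0 := left_ne_zero_of_mul_eq_one h1
    exact mul_left_cancel₀ h2 (h.trans h1.symm)
  refine ⟨fun p q => (c : ℂ) * η ^ ((2 * p + 1) * q), ?_, ?_, ?_, ?_⟩
  · intro p hp p' hp'
    have h1 : ∀ q ∈ Finset.range K, conj ((c : ℂ) * η ^ ((2 * p + 1) * q)) *
        ((c : ℂ) * η ^ ((2 * p' + 1) * q)) =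
        (c : ℂ) * c * (conj (η ^ (2 * p + 1)) * η ^ (2 * p' + 1)) ^ q := by
      intro q _
      rw [map_mul, Complex.conj_ofReal, pow_mul, pow_mul, map_pow, mul_pow]
      ring
    rw [Finset.sum_congr rfl h1, ← Finset.mul_sum]
    split_ifs with h
    · subst h
      rw [hcjp]
      simp only [one_pow, Finset.sum_const, Finset.card_range, nsmul_eq_mul, mul_one]
      exact hcc
    · rw [geom0, mul_zero]
      · have : ∀ m : ℕ, (η ^ (2 * m + 1)) ^ K = -1 := by
          intro m
          rw [← pow_mul, mul_comm, pow_mul, hηK, pow_succ, pow_mul]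
          norm_num
        rw [mul_pow, ← map_pow, this, this]
        simp
      · intro h2
        have h3 := hcancel _ _ h2
        have h4 := hη.pow_inj (by omega) (by omega) h3
        omega
  · intro q hq q' hq'
    have h1 : ∀ p ∈ Finset.range K, (c : ℂ) * η ^ ((2 * p + 1) * q) *
        conj ((c : ℂ) * η ^ ((2 * p + 1) * q')) =
        (c : ℂ) * c * (conj (η ^ q') * η ^ q) * (conj (η ^ (2 * q')) * η ^ (2 * q)) ^ p := by
      intro p _
      rw [map_mul, Complex.conj_ofReal, mul_pow, ← map_pow, ← pow_mul, ← pow_mul]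
      have e1 : (2 * p + 1) * q = q + 2 * q * p := by ring
      have e2 : (2 * p + 1) * q' = q' + 2 * q' * p := by ring
      rw [e1, e2, pow_add, pow_add, map_mul]
      ring
    rw [Finset.sum_congr rfl h1, ← Finset.mul_sum]
    split_ifs with h
    · subst h
      rw [hcjp, hcjp]
      simp only [one_pow, Finset.sum_const, Finset.card_range, nsmul_eq_mul, mul_one]
      exact hcc
    · rw [geom0, mul_zero]
      · have : ∀ m : ℕ, (η ^ (2 * m)) ^ K = 1 := by
          intro m
          rw [← pow_mul]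
          have : 2 * m * K = 2 * K * m := by ring
          rw [this, pow_mul, hη2, one_pow]
        rw [mul_pow, ← map_pow, this, this]
        simp
      · intro h2
        have h3 := hcancel _ _ h2
        rw [pow_mul, pow_mul] at h3
        have h4 := hζ.pow_inj hq hq' h3
        omega
  · intro p hp q hq
    have h1 : conj (η ^ (2 * (K - 1 - p) + 1)) = η ^ (2 * p + 1) := by
      have h2 := hcjp (2 * (K - 1 - p) + 1)
      have h3 : η ^ (2 * p + 1) * η ^ (2 * (K - 1 - p) + 1) = 1 := by
        rw [← pow_add]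
        have : 2 * p + 1 + (2 * (K - 1 - p) + 1) = 2 * K := by omega
        rw [this, hη2]
      exact mul_right_cancel₀ (right_ne_zero_of_mul_eq_one h2) (h2.trans h3.symm)
    show conj ((c : ℂ) * η ^ ((2 * (K - 1 - p) + 1) * q)) = (c : ℂ) * η ^ ((2 * p + 1) * q)
    rw [map_mul, Complex.conj_ofReal, pow_mul, map_pow, h1, ← pow_mul]
  · intro q hq
    have h1 : ∀ p ∈ Finset.range K, (c : ℂ) * η ^ ((2 * p + 1) * q) =
        (c : ℂ) * η ^ q * (η ^ (2 * q)) ^ p := by
      intro p _
      rw [← pow_mul]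
      have e1 : (2 * p + 1) * q = q + 2 * q * p := by ring
      rw [e1, pow_add]
      ring
    rw [Finset.sum_congr rfl h1, ← Finset.mul_sum]
    split_ifs with h
    · subst h
      simp only [mul_zero, pow_zero, one_pow, Finset.sum_const, Finset.card_range, nsmul_eq_mul, mul_one]
      rw [mul_comm]
      exact hcK
    · rw [geom0, mul_zero]
      · rw [← pow_mul]
        have : 2 * q * K = 2 * K * q := by ring
        rw [this, pow_mul, hη2, one_pow]
      · intro h2
        rw [pow_mul] at h2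
        have h4 := hζ.pow_inj hq (by omega : 0 < K) (by rw [h2, pow_zero])
        omega

theorem taskVW : TaskVW := by
  intro N K hK
  obtain ⟨a, ha⟩ := mat_exists K hK
  exact ⟨_, _, vw_of_mat N K a ha⟩

end Pool.Agent.H644R3.AQ
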